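import Pool.Agent.Q120.SkewLaurent

namespace Pool.Agent.Results.MP_20d9b9_al.RegularArtinian

open Pool.Agent.Q120 Pool.Agent.Q120.SkewLaurent

universe u

/-- A ring is von Neumann regular if every `r` satisfies `r = r s r` for some `s`. -/
def IsVNRegular (R : Type*) [Ring R] : Prop := ∀ r : R, ∃ s : R, r = r * s * r

section rank

variable {A : Type u} [Ring A]

/-- `A s` is zero or a minimal left ideal. -/
def Mn (s : A) : Prop := ∀ y : A, y * s ≠ 0 → ∃ z : A, z * (y * s) = s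

lemma Mn.mul_left {s : A} (h : Mn s) (x : A) : Mn (x * s) := by
  intro y hy
  have h1 : (y * x) * s ≠ 0 := by rwa [mul_assoc]
  obtain ⟨z, hz⟩ := h _ h1
  refine ⟨x * z, ?_⟩
  calc x * z * (y * (x * s)) = x * (z * (y * x * s)) := by simp only [mul_assoc]
    _ = x * s := by rw [hz]

lemma Mn.mul_right {s : A} (h : Mn s) (c : A) : Mn (s * c) := by
  intro y hy
  have h1 : y * s ≠ 0 := by
    intro h0
    apply hy
    rw [← mul_assoc, h0, zero_mul]
  obtain ⟨z, hz⟩ := h _ h1
  refine ⟨z, ?_⟩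
  calc z * (y * (s * c)) = z * (y * s) * c := by simp only [mul_assoc]
    _ = s * c := by rw [hz]

/-- `a` is a sum of at most `n` elements generating zero or minimal left ideals. -/
def Rk (n : ℕ) (a : A) : Prop := ∃ l : List A, l.length ≤ n ∧ (∀ s ∈ l, Mn s) ∧ l.sum = a

lemma Rk.add {m n : ℕ} {a b : A} (ha : Rk m a) (hb : Rk n b) : Rk (m + n) (a + b) := by
  obtain ⟨l, h1, h2, h3⟩ := ha
  obtain ⟨l', h1', h2', h3'⟩ := hb
  refine ⟨l ++ l', by rw [List.length_append]; omega, ?_, by rw [List.sum_append, h3, h3']⟩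
  intro s hs
  rcases List.mem_append.mp hs with h | h
  · exact h2 s h
  · exact h2' s h

lemma Rk.mul_left {n : ℕ} {a : A} (ha : Rk n a) (x : A) : Rk n (x * a) := by
  obtain ⟨l, h1, h2, h3⟩ := ha
  refine ⟨l.map (x * ·), by rwa [List.length_map], ?_, by
    rw [← h3]; exact List.sum_map_mul_left l _ x |>.trans (by simp)⟩
  intro s hs
  obtain ⟨t, ht, rfl⟩ := List.mem_map.mp hs
  exact (h2 t ht).mul_left x

lemma Rk.mul_right {n : ℕ} {a : A} (ha : Rk n a) (x : A) : Rk n (a * x) := by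
  obtain ⟨l, h1, h2, h3⟩ := ha
  refine ⟨l.map (· * x), by rwa [List.length_map], ?_, by
    rw [← h3]; exact List.sum_map_mul_right l _ x |>.trans (by simp)⟩
  intro s hs
  obtain ⟨t, ht, rfl⟩ := List.mem_map.mp hs
  exact (h2 t ht).mul_right x

lemma Rk.mono {m n : ℕ} (h : m ≤ n) {a : A} (ha : Rk m a) : Rk n a := by
  obtain ⟨l, h1, h2, h3⟩ := ha
  exact ⟨l, h1.trans h, h2, h3⟩

lemma Rk.of_Mn {a : A} (ha : Mn a) : Rk 1 a := ⟨[a], le_rfl, by simpa using ha, by simp⟩

/-- Boundedness of the rank on `G A H`. -/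
def Bdd (G H : A) : Prop := ∃ n, ∀ a, Rk n (G * a * H)

lemma split (hA : IsVNRegular A) {e : A} (he : e * e = e) (hne : ¬ Mn e) :
    ∃ e' e'' : A, e' * e' = e' ∧ e'' * e'' = e'' ∧ e' * e'' = 0 ∧ e'' * e' = 0 ∧
      e' + e'' = e ∧ e' ≠ 0 ∧ e'' ≠ 0 ∧ e * e' = e' ∧ e' * e = e' ∧ e * e'' = e'' ∧
      e'' * e = e'' := by
  unfold Mn at hne
  push Not at hne
  obtain ⟨y, hy, hz⟩ := hne
  obtain ⟨w, hw⟩ := hA (y * e)
  obtain ⟨e', he'⟩ : ∃ e', e' = e * w * (y * e) := ⟨_, rfl⟩
  have h1 : e * e' = e' := by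
    rw [he']
    calc e * (e * w * (y * e)) = (e * e) * w * (y * e) := by simp only [mul_assoc]
      _ = _ := by rw [he]
  have h2 : e' * e = e' := by
    rw [he']
    calc e * w * (y * e) * e = e * w * (y * (e * e)) := by simp only [mul_assoc]
      _ = _ := by rw [he]
  have h3 : y * e' = y * e := by
    rw [he']
    calc y * (e * w * (y * e)) = (y * e) * w * (y * e) := by simp only [mul_assoc]
      _ = y * e := hw.symm
  have h4 : e' * e' = e' := by
    have : e' * e' = e * w * (y * e * e') := by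
      conv_lhs => enter [1]; rw [he']
      simp only [mul_assoc]
    rw [this]
    have : y * e * e' = y * e := by
      rw [mul_assoc, h1, h3]
    rw [this, ← he']
  have h5 : e' ≠ 0 := by
    intro h
    apply hy
    rw [← h3, h, mul_zero]
  refine ⟨e', e - e', h4, ?_, ?_, ?_, by rw [add_sub_cancel], h5, ?_, h1, h2, ?_, ?_⟩
  · rw [mul_sub, sub_mul, sub_mul, he, h2, h1, h4]; simp
  · rw [mul_sub, h2, h4, sub_self]
  · rw [sub_mul, h1, h4, sub_self]
  · intro h
    rw [sub_eq_zero] at h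
    apply hz (e * w)
    rw [← he', ← h]
  · rw [mul_sub, he, h1]
  · rw [sub_mul, he, h2]

lemma three (hA : IsVNRegular A) {e : A} (he : e * e = e) (hne : ¬ Rk 2 e) :
    ∃ g : Fin 3 → A, (∀ i, g i * g i = g i) ∧ (∀ i j, i ≠ j → g i * g j = 0) ∧
      (∀ i, g i ≠ 0) ∧ (∀ i, e * g i = g i) ∧ (∀ i, g i * e = g i) := by
  have h0 : ¬ Mn e := fun h => hne ((Rk.of_Mn h).mono (by norm_num))
  obtain ⟨x, y, hx, hy, hxy, hyx, hs, hx0, hy0, h1, h2, h3, h4⟩ := split hA he h0
  -- the symmetric construction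
  have key : ∀ x y : A, x * x = x → y * y = y → x * y = 0 → y * x = 0 → x ≠ 0 → y ≠ 0 →
      e * x = x → x * e = x → e * y = y → y * e = y → ¬ Mn x →
      ∃ g : Fin 3 → A, (∀ i, g i * g i = g i) ∧ (∀ i j, i ≠ j → g i * g j = 0) ∧
      (∀ i, g i ≠ 0) ∧ (∀ i, e * g i = g i) ∧ (∀ i, g i * e = g i) := by
    intro x y hx hy hxy hyx hx0 hy0 h1 h2 h3 h4 hMx
    obtain ⟨p, q, hp, hq, hpq, hqp, hs, hp0, hq0, k1, k2, k3, k4⟩ := split hA hx hMx
    have hpy : p * y = 0 := by rw [← k2, mul_assoc, hxy, mul_zero]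
    have hyp : y * p = 0 := by rw [← k1, ← mul_assoc, hyx, zero_mul]
    have hqy : q * y = 0 := by rw [← k4, mul_assoc, hxy, mul_zero]
    have hyq : y * q = 0 := by rw [← k3, ← mul_assoc, hyx, zero_mul]
    refine ⟨![p, q, y], ?_, ?_, ?_, ?_, ?_⟩
    · intro i; fin_cases i <;> simp [hp, hq, hy]
    · intro i j hij
      fin_cases i <;> fin_cases j <;> simp_all
    · intro i; fin_cases i <;> simp [hp0, hq0, hy0]
    · intro i
      fin_cases i
      · change e * p = p
        rw [← k1, ← mul_assoc, h1]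
      · change e * q = q
        rw [← k3, ← mul_assoc, h1]
      · exact h3
    · intro i
      fin_cases i
      · change p * e = p
        rw [← k2, mul_assoc, h2]
      · change q * e = q
        rw [← k4, mul_assoc, h2]
      · exact h4
  by_cases hMx : Mn x
  · by_cases hMy : Mn y
    · exact absurd (by rw [← hs]; exact (Rk.of_Mn hMx).add (Rk.of_Mn hMy)) hne
    · exact key y x hy hx hyx hxy hy0 hx0 h3 h4 h1 h2 hMy
  · exact key x y hx hy hxy hyx hx0 hy0 h1 h2 h3 h4 hMx

lemma pairs (hA : IsVNRegular A) {G H a : A} (hG : G * G = G) (hH : H * H = H)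
    (ha : G * a * H = a) (hne : ¬ Rk 2 a) :
    ∃ (g h c : Fin 3 → A), (∀ i, g i * g i = g i) ∧ (∀ i j, i ≠ j → g i * g j = 0) ∧
      (∀ i, h i * h i = h i) ∧ (∀ i j, i ≠ j → h i * h j = 0) ∧
      (∀ i, G * g i = g i) ∧ (∀ i, g i * G = g i) ∧ (∀ i, H * h i = h i) ∧
      (∀ i, h i * H = h i) ∧ (∀ i, c i ≠ 0) ∧ (∀ i, g i * c i = c i) ∧ (∀ i, c i * h i = c i) := by
  obtain ⟨b0, hb0⟩ := hA a
  obtain ⟨b, hb⟩ : ∃ b, b = H * b0 * G := ⟨_, rfl⟩
  have hGa : G * a = a := by
    rw [← ha]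
    calc G * (G * a * H) = (G * G) * a * H := by simp only [mul_assoc]
      _ = _ := by rw [hG]
  have haH : a * H = a := by
    rw [← ha]
    calc G * a * H * H = G * a * (H * H) := by simp only [mul_assoc]
      _ = _ := by rw [hH]
  have haba : a * b * a = a := by
    rw [hb]
    calc a * (H * b0 * G) * a = (a * H) * b0 * (G * a) := by simp only [mul_assoc]
      _ = a * b0 * a := by rw [haH, hGa]
      _ = a := hb0.symm
  have hHb : H * b = b := by
    rw [hb]
    calc H * (H * b0 * G) = (H * H) * b0 * G := by simp only [mul_assoc]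
      _ = _ := by rw [hH]
  have hbG : b * G = b := by
    rw [hb]
    calc H * b0 * G * G = H * b0 * (G * G) := by simp only [mul_assoc]
      _ = _ := by rw [hG]
  obtain ⟨e, he⟩ : ∃ e, e = a * b := ⟨_, rfl⟩
  have hee : e * e = e := by
    rw [he, ← mul_assoc, haba]
  have hea : e * a = a := by rw [he, haba]
  have hGe : G * e = e := by rw [he, ← mul_assoc, hGa]
  have heG : e * G = e := by rw [he, mul_assoc, hbG]
  have hne' : ¬ Rk 2 e := by
    intro h
    apply hne
    rw [← hea]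
    exact h.mul_right a
  obtain ⟨g, g1, g2, g3, g4, g5⟩ := three hA hee hne'
  refine ⟨g, fun i => b * g i * a, fun i => g i * a, g1, g2, ?_, ?_, ?_, ?_, ?_, ?_, ?_, ?_, ?_⟩
  · intro i
    calc b * g i * a * (b * g i * a) = b * (g i * (a * b)) * g i * a := by simp only [mul_assoc]
      _ = b * (g i * g i) * a := by rw [← he, g5, mul_assoc b]
      _ = _ := by rw [g1]
  · intro i j hij
    calc b * g i * a * (b * g j * a) = b * (g i * (a * b)) * g j * a := by simp only [mul_assoc]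
      _ = b * (g i * g j) * a := by rw [← he, g5, mul_assoc b]
      _ = _ := by rw [g2 i j hij, mul_zero, zero_mul]
  · intro i
    rw [← g4 i, ← mul_assoc, hGe]
  · intro i
    rw [← g5 i, mul_assoc, heG]
  · intro i
    calc H * (b * g i * a) = (H * b) * g i * a := by simp only [mul_assoc]
      _ = _ := by rw [hHb]
  · intro i
    rw [mul_assoc, haH]
  · intro i h
    apply g3 i
    calc g i = g i * (a * b) := by rw [← he, g5]
      _ = (g i * a) * b := by rw [mul_assoc]
      _ = 0 := by rw [show g i * a = 0 from h, zero_mul]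
  · intro i
    rw [← mul_assoc, g1]
  · intro i
    calc g i * a * (b * g i * a) = g i * (a * b) * g i * a := by simp only [mul_assoc]
      _ = g i * a := by rw [← he, g5, g1]

/-- If `G - g_i`, `H - h_i` are bounded for three orthogonal pairs, so is `G`, `H`. -/
lemma bdd_of_three {G H : A} (hG : G * G = G) (hH : H * H = H) (g h : Fin 3 → A)
    (g1 : ∀ i, g i * g i = g i) (g2 : ∀ i j, i ≠ j → g i * g j = 0)
    (h1 : ∀ i, h i * h i = h i) (h2 : ∀ i j, i ≠ j → h i * h j = 0)
    (g3 : ∀ i, G * g i = g i) (g4 : ∀ i, g i * G = g i) (h3 : ∀ i, H * h i = h i)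
    (h4 : ∀ i, h i * H = h i) (hb : ∀ i, Bdd (G - g i) (H - h i)) : Bdd G H := by
  obtain ⟨n0, k0⟩ := hb 0
  obtain ⟨n1, k1⟩ := hb 1
  obtain ⟨n2, k2⟩ := hb 2
  refine ⟨n0 + n1 + n2 + n2 + n1, fun x => ?_⟩
  -- terms fixed by the projections
  have key : ∀ (i : Fin 3) (p q : A), (G - g i) * p = p → q * (H - h i) = q →
      (G - g i) * (p * x * q) * (H - h i) = p * x * q := by
    intro i p q hp hq
    calc (G - g i) * (p * x * q) * (H - h i) = ((G - g i) * p) * x * (q * (H - h i)) := by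
          simp only [mul_assoc]
      _ = _ := by rw [hp, hq]
  have hPg : ∀ i j, i ≠ j → (G - g i) * g j = g j := fun i j hij => by
    rw [sub_mul, g3, g2 i j hij, sub_zero]
  have hhQ : ∀ i j, j ≠ i → h j * (H - h i) = h j := fun i j hij => by
    rw [mul_sub, h4, h2 j i hij, sub_zero]
  have hPP : ∀ i, (G - g i) * (G - g i) = G - g i := fun i => by
    rw [mul_sub, sub_mul, sub_mul, hG, g3, g4, g1]; simp
  have hQQ : ∀ i, (H - h i) * (H - h i) = H - h i := fun i => by
    rw [mul_sub, sub_mul, sub_mul, hH, h3, h4, h1]; simp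
  have t0 : Rk n0 ((G - g 0) * x * (H - h 0)) := k0 x
  have t1 : Rk n1 (g 0 * x * (H - h 1)) := by
    rw [← key 1 (g 0) (H - h 1) (hPg 1 0 (by decide)) (hQQ 1)]
    exact k1 _
  have t2 : Rk n2 (g 0 * x * h 1) := by
    rw [← key 2 (g 0) (h 1) (hPg 2 0 (by decide)) (hhQ 2 1 (by decide))]
    exact k2 _
  have t3 : Rk n2 (g 1 * x * h 0) := by
    rw [← key 2 (g 1) (h 0) (hPg 2 1 (by decide)) (hhQ 2 0 (by decide))]
    exact k2 _
  have t4 : Rk n1 ((G - g 0 - g 1) * x * h 0) := by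
    have : (G - g 1) * (G - g 0 - g 1) = G - g 0 - g 1 := by
      rw [mul_sub, mul_sub, sub_mul, sub_mul, sub_mul, hG, g3, g3, g4, g1,
        g2 1 0 (by decide)]
      simp only [sub_self, sub_zero]
      abel
    rw [← key 1 (G - g 0 - g 1) (h 0) this (hhQ 1 0 (by decide))]
    exact k1 _
  have hsum : G * x * H = (G - g 0) * x * (H - h 0) + g 0 * x * (H - h 1) + g 0 * x * h 1 +
      g 1 * x * h 0 + (G - g 0 - g 1) * x * h 0 := by
    noncomm_ring
  rw [hsum]
  exact (((t0.add t1).add t2).add t3).add t4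

/-- The state of the recursive construction. -/
structure State (φ : RingAut A) where
  G : A
  F : A
  T : Set ℕ
  b : ℕ
  hG : G * G = G
  hF : F * F = F
  hT : T.Infinite
  hbig : ∀ m ∈ T, ¬ Bdd G ((φ ^ (m : ℤ)) F)

lemma step (hA : IsVNRegular A) {φ : RingAut A} (S : State φ) :
    ∃ (S' : State φ) (n : ℕ) (E E' a : A), S.b ≤ n ∧ S'.b = n + 1 ∧ E * E = E ∧ E' * E' = E' ∧
      S.G * E = E ∧ E * S.G = E ∧ S.F * E' = E' ∧ E' * S.F = E' ∧ S'.G = S.G - E ∧
      S'.F = S.F - E' ∧ a ≠ 0 ∧ E * a = a ∧ a * (φ ^ (n : ℤ)) E' = a := by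
  obtain ⟨n, hnT, hn⟩ := S.hT.exists_gt S.b
  have hbig := S.hbig n hnT
  unfold Bdd at hbig
  push Not at hbig
  obtain ⟨a0, ha0⟩ := hbig 2
  have hFn : (φ ^ (n : ℤ)) S.F * (φ ^ (n : ℤ)) S.F = (φ ^ (n : ℤ)) S.F := by
    rw [← map_mul, S.hF]
  have ha1 : S.G * (S.G * a0 * (φ ^ (n : ℤ)) S.F) * (φ ^ (n : ℤ)) S.F =
      S.G * a0 * (φ ^ (n : ℤ)) S.F := by
    calc _ = (S.G * S.G) * a0 * ((φ ^ (n : ℤ)) S.F * (φ ^ (n : ℤ)) S.F) := by
          simp only [mul_assoc]
      _ = _ := by rw [S.hG, hFn]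
  obtain ⟨g, h, c, g1, g2, h1, h2, g3, g4, h3, h4, c1, c2, c3⟩ := pairs hA S.hG hFn ha1 ha0
  obtain ⟨E', hE'⟩ : ∃ E' : Fin 3 → A, ∀ i, (φ ^ (n : ℤ)) (E' i) = h i :=
    ⟨fun i => (φ ^ (n : ℤ)).symm (h i), fun i => (φ ^ (n : ℤ)).apply_symm_apply _⟩
  have hinj : Function.Injective (φ ^ (n : ℤ)) := (φ ^ (n : ℤ)).injective
  have e1 : ∀ i, E' i * E' i = E' i := fun i => hinj (by rw [map_mul, hE', h1])
  have e2 : ∀ i j, i ≠ j → E' i * E' j = 0 := fun i j hij => hinj (by
    rw [map_mul, hE', hE', h2 i j hij, map_zero])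
  have e3 : ∀ i, S.F * E' i = E' i := fun i => hinj (by rw [map_mul, hE', h3])
  have e4 : ∀ i, E' i * S.F = E' i := fun i => hinj (by rw [map_mul, hE', h4])
  have hm : ∀ m ∈ S.T, ∃ i : Fin 3, ¬ Bdd (S.G - g i) ((φ ^ (m : ℤ)) (S.F - E' i)) := by
    intro m hmT
    by_contra hcon
    push Not at hcon
    apply S.hbig m hmT
    refine bdd_of_three S.hG (by rw [← map_mul, S.hF]) g (fun i => (φ ^ (m : ℤ)) (E' i)) g1 g2
      ?_ ?_ g3 g4 ?_ ?_ ?_
    · intro i
      rw [← map_mul, e1]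
    · intro i j hij
      rw [← map_mul, e2 i j hij, map_zero]
    · intro i
      rw [← map_mul, e3]
    · intro i
      rw [← map_mul, e4]
    · intro i
      have := hcon i
      rw [map_sub] at this
      exact this
  obtain ⟨i, hi⟩ : ∃ i : Fin 3,
      {m ∈ S.T | ¬ Bdd (S.G - g i) ((φ ^ (m : ℤ)) (S.F - E' i))}.Infinite := by
    by_contra hcon
    push Not at hcon
    apply S.hT
    have : S.T ⊆ ⋃ i : Fin 3, {m ∈ S.T | ¬ Bdd (S.G - g i) ((φ ^ (m : ℤ)) (S.F - E' i))} := by
      intro m hmT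
      obtain ⟨i, hi⟩ := hm m hmT
      exact Set.mem_iUnion.mpr ⟨i, hmT, hi⟩
    exact (Set.finite_iUnion fun i => hcon i).subset this
  refine ⟨⟨S.G - g i, S.F - E' i, _, n + 1, ?_, ?_, hi, fun m hm => hm.2⟩, n, g i, E' i, c i,
    hn.le, rfl, g1 i, e1 i, g3 i, g4 i, e3 i, e4 i, rfl, rfl, c1 i, c2 i, ?_⟩
  · rw [mul_sub, sub_mul, sub_mul, S.hG, g3, g4, g1]; simp
  · rw [mul_sub, sub_mul, sub_mul, S.hF, e3, e4, e1]; simp
  · rw [hE', c3]

/-- The sequences produced by the recursion. -/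
lemma sequences (hA : IsVNRegular A) {φ : RingAut A} (h0 : ¬ Bdd (1 : A) 1) :
    ∃ (n : ℕ → ℕ) (E E' a : ℕ → A), StrictMono n ∧
      (∀ j k, j ≠ k → E j * E k = 0) ∧ (∀ j k, j ≠ k → E' j * E' k = 0) ∧
      (∀ k, a k ≠ 0) ∧ (∀ k, E k * a k = a k) ∧ (∀ k, a k * (φ ^ (n k : ℤ)) (E' k) = a k) := by
  let S0 : State φ := ⟨1, 1, Set.univ, 0, one_mul 1, one_mul 1, Set.infinite_univ, fun m _ => by
    rwa [map_one]⟩
  choose nx n E E' a p1 p2 p3 p4 p5 p6 p7 p8 p9 p10 p11 p12 p13 using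
    fun S : State φ => step hA S
  let S : ℕ → State φ := fun k => Nat.rec S0 (fun _ s => nx s) k
  have hS : ∀ k, S (k + 1) = nx (S k) := fun k => rfl
  have hGG : ∀ k j, (S k).G * (S (k + j)).G = (S (k + j)).G ∧
      (S (k + j)).G * (S k).G = (S (k + j)).G := by
    intro k j
    induction j with
    | zero => exact ⟨(S k).hG, (S k).hG⟩
    | succ j ih =>
      obtain ⟨i1, i2⟩ := ih
      have h1 : (S (k + (j + 1))).G = (S (k + j)).G - E (S (k + j)) := by
        rw [← add_assoc, hS, p9]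
      rw [h1]
      constructor
      · rw [mul_sub, i1, ← p5 (S (k + j)), ← mul_assoc, i1]
      · rw [sub_mul, i2]
        congr 1
        rw [← p6 (S (k + j)), mul_assoc, i2]
  have hFF : ∀ k j, (S k).F * (S (k + j)).F = (S (k + j)).F ∧
      (S (k + j)).F * (S k).F = (S (k + j)).F := by
    intro k j
    induction j with
    | zero => exact ⟨(S k).hF, (S k).hF⟩
    | succ j ih =>
      obtain ⟨i1, i2⟩ := ih
      have h1 : (S (k + (j + 1))).F = (S (k + j)).F - E' (S (k + j)) := by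
        rw [← add_assoc, hS, p10]
      rw [h1]
      constructor
      · rw [mul_sub, i1, ← p7 (S (k + j)), ← mul_assoc, i1]
      · rw [sub_mul, i2]
        congr 1
        rw [← p8 (S (k + j)), mul_assoc, i2]
  have hE : ∀ j k, j < k → E (S j) * E (S k) = 0 ∧ E (S k) * E (S j) = 0 := by
    intro j k hjk
    obtain ⟨d, rfl⟩ : ∃ d, k = (j + 1) + d := ⟨k - (j + 1), by omega⟩
    obtain ⟨i1, i2⟩ := hGG (j + 1) d
    have h1 : E (S j) * (S (j + 1)).G = 0 := by
      rw [hS, p9, mul_sub, p6, p3, sub_self]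
    have h2 : (S (j + 1)).G * E (S j) = 0 := by
      rw [hS, p9, sub_mul, p5, p3, sub_self]
    constructor
    · rw [← p5 (S (j + 1 + d)), ← mul_assoc, ← i1, ← mul_assoc, h1, zero_mul, zero_mul]
    · rw [← p6 (S (j + 1 + d)), mul_assoc, ← i2, mul_assoc, h2, mul_zero, mul_zero]
  have hE' : ∀ j k, j < k → E' (S j) * E' (S k) = 0 ∧ E' (S k) * E' (S j) = 0 := by
    intro j k hjk
    obtain ⟨d, rfl⟩ : ∃ d, k = (j + 1) + d := ⟨k - (j + 1), by omega⟩
    obtain ⟨i1, i2⟩ := hFF (j + 1) d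
    have h1 : E' (S j) * (S (j + 1)).F = 0 := by
      rw [hS, p10, mul_sub, p8, p4, sub_self]
    have h2 : (S (j + 1)).F * E' (S j) = 0 := by
      rw [hS, p10, sub_mul, p7, p4, sub_self]
    constructor
    · rw [← p7 (S (j + 1 + d)), ← mul_assoc, ← i1, ← mul_assoc, h1, zero_mul, zero_mul]
    · rw [← p8 (S (j + 1 + d)), mul_assoc, ← i2, mul_assoc, h2, mul_zero, mul_zero]
  refine ⟨fun k => n (S k), fun k => E (S k), fun k => E' (S k), fun k => a (S k),
    strictMono_nat_of_lt_succ ?_, ?_, ?_, fun k => p11 _, fun k => p12 _, fun k => p13 _⟩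
  · intro k
    have h1 := p1 (S (k + 1))
    have h2 := p2 (S k)
    rw [← hS] at h2
    change n (S k) < n (S (k + 1))
    omega
  · intro j k hjk
    rcases lt_or_gt_of_ne hjk with h | h
    · exact (hE j k h).1
    · exact (hE k j h).2
  · intro j k hjk
    rcases lt_or_gt_of_ne hjk with h | h
    · exact (hE' j k h).1
    · exact (hE' k j h).2

end rank

section main

variable {A : Type u} [Ring A] {φ : RingAut A}

/-- If the skew Laurent series ring is regular, so is `A`. -/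
lemma regular_base (hR : IsVNRegular (SkewLaurent φ)) : IsVNRegular A := by
  intro a
  obtain ⟨g, hg⟩ := hR (monomial φ 0 a)
  refine ⟨g.coeff 0, ?_⟩
  have h := congrArg (fun w : SkewLaurent φ => w.coeff 0) hg
  rw [coeff_mul_monomial, sub_zero, coeff_monomial_mul, sub_zero, coeff_monomial, if_pos rfl] at h
  simpa using h

/-- If the skew Laurent series ring is regular, the rank of `A` is bounded. -/
lemma bounded (hR : IsVNRegular (SkewLaurent φ)) : Bdd (1 : A) 1 := by
  by_contra h0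
  obtain ⟨n, E, E', a, hn, hE, hE', ha0, hEa, haE⟩ := sequences (φ := φ) (regular_base hR) h0
  classical
  let c : ℤ → A := fun i => if h : ∃ k, (n k : ℤ) = i then a h.choose else 0
  have hninj : Function.Injective n := hn.injective
  have hc : ∀ k, c (n k) = a k := by
    intro k
    have h : ∃ j, (n j : ℤ) = (n k : ℤ) := ⟨k, rfl⟩
    change (if h : ∃ j, (n j : ℤ) = (n k : ℤ) then a h.choose else 0) = _
    rw [dif_pos h]
    congr 1
    apply hninj
    exact_mod_cast h.choose_spec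
  have hc' : ∀ i, (∀ k, (n k : ℤ) ≠ i) → c i = 0 := by
    intro i hi
    change (if h : ∃ j, (n j : ℤ) = i then a h.choose else 0) = _
    rw [dif_neg]
    rintro ⟨k, hk⟩
    exact hi k hk
  let f : SkewLaurent φ := ⟨c, 0, fun i hi => hc' i fun k hk => by
    have : (0 : ℤ) ≤ n k := Int.natCast_nonneg _
    omega⟩
  have hf : ∀ i, f.coeff i = c i := fun i => rfl
  have hEf : ∀ k, monomial φ 0 (E k) * f = monomial φ (n k) (a k) := by
    intro k
    apply SkewLaurent.ext
    funext i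
    rw [coeff_monomial_mul, coeff_monomial, zpow_zero, RingAut.one_apply, sub_zero, hf]
    by_cases h : ∃ j, (n j : ℤ) = i
    · obtain ⟨j, rfl⟩ := h
      rw [hc]
      by_cases hjk : j = k
      · subst hjk
        rw [if_pos rfl, hEa]
      · rw [if_neg (by intro h; exact hjk (hninj (by exact_mod_cast h))), ← hEa j, ← mul_assoc,
          hE k j (Ne.symm hjk), zero_mul]
    · push Not at h
      rw [hc' i h, mul_zero, if_neg (fun hi => h k hi.symm)]
  have hfE : ∀ k, f * monomial φ 0 (E' k) = monomial φ (n k) (a k) := by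
    intro k
    apply SkewLaurent.ext
    funext i
    rw [coeff_mul_monomial, coeff_monomial, sub_zero, hf]
    by_cases h : ∃ j, (n j : ℤ) = i
    · obtain ⟨j, rfl⟩ := h
      rw [hc]
      by_cases hjk : j = k
      · subst hjk
        rw [if_pos rfl, haE]
      · rw [if_neg (by intro h; exact hjk (hninj (by exact_mod_cast h))), ← haE j, mul_assoc,
          ← map_mul, hE' j k hjk, map_zero, mul_zero]
    · push Not at h
      rw [hc' i h, zero_mul, if_neg (fun hi => h k hi.symm)]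
  obtain ⟨g, hg⟩ := hR f
  obtain ⟨N, hN⟩ := g.bdd
  -- choose `k` with `n k > -N`
  obtain ⟨k, hk⟩ : ∃ k : ℕ, -N < (n k : ℤ) := by
    refine ⟨(-N).toNat + 1, ?_⟩
    have h1 : (-N).toNat + 1 ≤ n ((-N).toNat + 1) := hn.le_apply
    have h2 : -N ≤ ((-N).toNat : ℤ) := Int.self_le_toNat _
    omega
  obtain ⟨m, hm⟩ : ∃ m, m = monomial φ (n k) (a k) := ⟨_, rfl⟩
  have hEm : monomial φ 0 (E k) * m = m := by
    rw [hm]
    apply SkewLaurent.ext
    funext i
    rw [coeff_monomial_mul, coeff_monomial, zpow_zero, RingAut.one_apply, sub_zero,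
      mul_ite, mul_zero, hEa]
    rfl
  have h1 : m = m * g * m := by
    have h2 : monomial φ 0 (E k) * f * monomial φ 0 (E' k) =
        (monomial φ 0 (E k) * f) * g * (f * monomial φ 0 (E' k)) := by
      conv_lhs => rw [hg]
      simp only [mul_assoc]
    rw [mul_assoc, hfE, hEf, ← hm, hEm] at h2
    exact h2
  have h3 : (m * g * m).coeff (n k) = 0 := by
    have hmb : ∀ i < (n k : ℤ), m.coeff i = 0 := fun i hi => by
      rw [hm, coeff_monomial, if_neg (ne_of_lt hi)]
    have hmg : ∀ i < (n k : ℤ) + N, (m * g).coeff i = 0 := fun i hi => coeff_mul_lt hmb hN i hi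
    exact coeff_mul_lt hmg hmb _ (by omega)
  rw [← h1, hm, coeff_monomial, if_pos rfl] at h3
  exact ha0 k h3

/-- Boundedness gives semisimplicity of `A`. -/
lemma semisimple_base (h : Bdd (1 : A) 1) : IsSemisimpleRing A := by
  obtain ⟨n, hn⟩ := h
  obtain ⟨l, _, hl, hs⟩ := hn 1
  rw [one_mul, one_mul] at hs
  refine isSemisimpleModule_of_isSemisimpleModule_submodule'
    (p := fun s : {s // s ∈ l ∧ s ≠ 0} => Ideal.span {s.1}) ?_ ?_
  · rintro ⟨s, hs, h0⟩
    have : IsSimpleModule A (Ideal.span {s}) := by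
      rw [isSimpleModule_iff_isAtom]
      refine ⟨?_, ?_⟩
      · intro h
        rw [Ideal.span_singleton_eq_bot] at h
        exact h0 h
      · intro N hN
        by_contra hne
        obtain ⟨t, ht, ht0⟩ := Submodule.exists_mem_ne_zero_of_ne_bot hne
        have ht' := hN.le ht
        rw [Ideal.mem_span_singleton'] at ht'
        obtain ⟨y, rfl⟩ := ht'
        obtain ⟨z, hz⟩ := hl s hs y ht0
        apply hN.not_ge
        rw [Ideal.span_singleton_le_iff_mem, ← hz]
        exact N.smul_mem z ht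
    infer_instance
  · rw [Ideal.eq_top_iff_one, ← hs]
    apply list_sum_mem
    intro s hs'
    by_cases h0 : s = 0
    · rw [h0]; exact zero_mem _
    · exact (le_iSup (fun s : {s // s ∈ l ∧ s ≠ 0} => Ideal.span {s.1}) ⟨s, hs', h0⟩)
        (Ideal.mem_span_singleton_self s)

/-- Solution of a triangular system. -/
def dseq (F : ℕ → A) (W : ℕ → ℕ → A) (t : ℕ) : A := F t - ∑ s : Fin t, dseq F W s.1 * W s.1 t
termination_by t
decreasing_by exact s.2

lemma dseq_eq (F : ℕ → A) (W : ℕ → ℕ → A) (t : ℕ) :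
    dseq F W t = F t - ∑ s ∈ Finset.range t, dseq F W s * W s t := by
  rw [dseq, Finset.sum_range]

/-- The series `∑_t d_t x^(m+t)`. -/
def ser (φ : RingAut A) (m : ℤ) (d : ℕ → A) : SkewLaurent φ :=
  ⟨fun i => if m ≤ i then d (i - m).toNat else 0, m, fun _ hi => if_neg (not_le.mpr hi)⟩

lemma coeff_ser (m : ℤ) (d : ℕ → A) (t : ℕ) : (ser φ m d).coeff (m + t) = d t := by
  change (if m ≤ m + (t : ℤ) then d (m + (t : ℤ) - m).toNat else 0) = _
  rw [if_pos (by omega), add_sub_cancel_left, Int.toNat_natCast]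

lemma coeff_ser_lt (m : ℤ) (d : ℕ → A) (i : ℤ) (hi : i < m) : (ser φ m d).coeff i = 0 :=
  if_neg (not_le.mpr hi)

lemma coeff_ser_mul (m : ℤ) (d : ℕ → A) (g : SkewLaurent φ) (hg : ∀ i < 0, g.coeff i = 0)
    (t : ℕ) : (ser φ m d * g).coeff (m + t) =
    ∑ s ∈ Finset.range (t + 1), d s * (φ ^ (m + (s : ℤ))) (g.coeff ((t : ℤ) - s)) := by
  rw [coeff_mul_eq_sum (fun i hi => coeff_ser_lt m d i hi) hg]
  symm
  refine Finset.sum_bij (fun s _ => m + (s : ℤ)) ?_ ?_ ?_ ?_
  · intro s hs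
    rw [Finset.mem_range] at hs
    rw [Finset.mem_Icc]
    omega
  · intro s _ s' _ h
    exact_mod_cast add_left_cancel h
  · intro i hi
    rw [Finset.mem_Icc] at hi
    refine ⟨(i - m).toNat, ?_, ?_⟩
    · rw [Finset.mem_range]; omega
    · rw [Int.toNat_of_nonneg (by omega)]; ring
  · intro s _
    rw [coeff_ser, show m + (t : ℤ) - (m + s) = t - s by ring]

/-- Every left ideal of the skew Laurent series ring over a semisimple ring is principal. -/
lemma principal (hA : IsSemisimpleRing A) (I : Ideal (SkewLaurent φ)) :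
    ∃ g ∈ I, ∀ f ∈ I, ∃ c, f = c * g := by
  -- the left ideal of lowest coefficients
  let L : Ideal A :=
    { carrier := {a | ∃ f ∈ I, (∀ i < 0, f.coeff i = 0) ∧ f.coeff 0 = a}
      add_mem' := by
        rintro a b ⟨f, hf, hf1, rfl⟩ ⟨g, hg, hg1, rfl⟩
        exact ⟨f + g, add_mem hf hg, fun i hi => by rw [coeff_add, hf1 i hi, hg1 i hi, add_zero],
          rfl⟩
      zero_mem' := ⟨0, zero_mem _, fun _ _ => rfl, rfl⟩
      smul_mem' := by
        rintro b a ⟨f, hf, hf1, rfl⟩
        refine ⟨monomial φ 0 b * f, I.mul_mem_left _ hf, fun i hi => ?_, ?_⟩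
        · rw [coeff_monomial_mul, sub_zero, hf1 i hi, map_zero, mul_zero]
        · rw [coeff_monomial_mul, sub_zero, zpow_zero]; rfl }
  obtain ⟨e, he, hLe⟩ := IsSemisimpleRing.ideal_eq_span_idempotent L
  obtain ⟨g, hgI, hg0, hge⟩ : e ∈ L := by
    rw [hLe]; exact Ideal.mem_span_singleton_self e
  refine ⟨g, hgI, fun f hf => ?_⟩
  obtain ⟨m, hm⟩ := f.bdd
  let W : ℕ → ℕ → A := fun s t => (φ ^ (m + (s : ℤ))) (g.coeff ((t : ℤ) - s))
  obtain ⟨d, hd⟩ : ∃ d : ℕ → A, ∀ t, d t = f.coeff (m + t) -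
      ∑ s ∈ Finset.range t, d s * (φ ^ (m + (s : ℤ))) (g.coeff ((t : ℤ) - s)) :=
    ⟨dseq (fun t => f.coeff (m + t)) W, fun t => dseq_eq _ W t⟩
  have hde : ∀ t, d t * (φ ^ (m + (t : ℤ))) e = d t := by
    intro t
    induction t using Nat.strong_induction_on with
    | _ t ih =>
      let d' : ℕ → A := fun s => if s < t then d s else 0
      obtain ⟨r, hr⟩ : ∃ r, r = f - ser φ m d' * g := ⟨_, rfl⟩
      have hrI : r ∈ I := by rw [hr]; exact sub_mem hf (I.mul_mem_left _ hgI)
      have hr1 : ∀ s : ℕ, s < t → r.coeff (m + s) = 0 := by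
        intro s hs
        rw [hr, coeff_sub, coeff_ser_mul m d' g hg0, Finset.sum_range_succ]
        have e1 : ∑ x ∈ Finset.range s, d' x * (φ ^ (m + (x : ℤ))) (g.coeff ((s : ℤ) - x)) =
            ∑ x ∈ Finset.range s, d x * (φ ^ (m + (x : ℤ))) (g.coeff ((s : ℤ) - x)) := by
          refine Finset.sum_congr rfl fun x hx => ?_
          rw [Finset.mem_range] at hx
          change (if x < t then d x else 0) * _ = _
          rw [if_pos (by omega)]
        have e2 : d' s * (φ ^ (m + (s : ℤ))) (g.coeff ((s : ℤ) - s)) = d s := by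
          change (if s < t then d s else 0) * _ = _
          rw [if_pos hs, sub_self, hge, ih s hs]
        rw [e1, e2, hd s]
        abel
      have hr2 : r.coeff (m + t) = d t := by
        rw [hr, coeff_sub, coeff_ser_mul m d' g hg0, Finset.sum_range_succ]
        have e1 : ∑ x ∈ Finset.range t, d' x * (φ ^ (m + (x : ℤ))) (g.coeff ((t : ℤ) - x)) =
            ∑ x ∈ Finset.range t, d x * (φ ^ (m + (x : ℤ))) (g.coeff ((t : ℤ) - x)) := by
          refine Finset.sum_congr rfl fun x hx => ?_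
          rw [Finset.mem_range] at hx
          change (if x < t then d x else 0) * _ = _
          rw [if_pos (by omega)]
        have e2 : d' t * (φ ^ (m + (t : ℤ))) (g.coeff ((t : ℤ) - t)) = 0 := by
          change (if t < t then d t else 0) * _ = _
          rw [if_neg (lt_irrefl t), zero_mul]
        rw [e1, e2, add_zero, hd t]
      have hr3 : ∀ i < m + t, r.coeff i = 0 := by
        intro i hi
        by_cases him : i < m
        · rw [hr, coeff_sub, hm i him]
          have := coeff_mul_lt (fun i hi => coeff_ser_lt (φ := φ) m d' i hi) hg0 i (by omega)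
          rw [this, sub_zero]
        · obtain ⟨s, hs⟩ : ∃ s : ℕ, i = m + s := ⟨(i - m).toNat, by omega⟩
          rw [hs]
          exact hr1 s (by omega)
      have hL : (φ ^ (-(m + (t : ℤ)))) (d t) ∈ L := by
        refine ⟨monomial φ (-(m + (t : ℤ))) 1 * r, I.mul_mem_left _ hrI, fun i hi => ?_, ?_⟩
        · rw [coeff_monomial_mul, one_mul, hr3 _ (by omega), map_zero]
        · rw [coeff_monomial_mul, one_mul, show (0 : ℤ) - -(m + (t : ℤ)) = m + t by ring, hr2]
      rw [hLe, Ideal.mem_span_singleton'] at hL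
      obtain ⟨b, hb⟩ := hL
      have h1 : d t = (φ ^ (m + (t : ℤ))) b * (φ ^ (m + (t : ℤ))) e := by
        rw [← map_mul, hb, ← RingAut.mul_apply, ← zpow_add, add_neg_cancel, zpow_zero]
        rfl
      rw [h1, mul_assoc, ← map_mul, he.eq]
  refine ⟨ser φ m d, ?_⟩
  apply SkewLaurent.ext
  funext i
  by_cases him : i < m
  · rw [hm i him]
    exact (coeff_mul_lt (fun i hi => coeff_ser_lt (φ := φ) m d i hi) hg0 i (by omega)).symm
  · obtain ⟨t, rfl⟩ : ∃ s : ℕ, i = m + s := ⟨(i - m).toNat, by omega⟩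
    rw [coeff_ser_mul m d g hg0, Finset.sum_range_succ, sub_self, hge, hde, hd t]
    abel

/-- If `A((x, φ))` is a regular ring, then it is semisimple. -/
theorem semisimple (hR : IsVNRegular (SkewLaurent φ)) : IsSemisimpleRing (SkewLaurent φ) := by
  have hA : IsSemisimpleRing A := semisimple_base (bounded hR)
  have hcompl : ∀ I : Ideal (SkewLaurent φ), ∃ J, IsCompl I J := by
    intro I
    obtain ⟨g, hgI, hg⟩ := principal hA I
    obtain ⟨w, hw⟩ := hR g
    obtain ⟨e, he⟩ : ∃ e, e = w * g := ⟨_, rfl⟩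
    have heI : e ∈ I := by rw [he]; exact I.mul_mem_left _ hgI
    have hge : g * e = g := by rw [he, ← mul_assoc]; exact hw.symm
    have hfe : ∀ f ∈ I, f * e = f := by
      intro f hf
      obtain ⟨c, rfl⟩ := hg f hf
      rw [mul_assoc, hge]
    have hee := hfe e heI
    refine ⟨Ideal.span {1 - e}, ?_, ?_⟩
    · rw [Submodule.disjoint_def]
      intro x hx hx'
      rw [Ideal.mem_span_singleton'] at hx'
      obtain ⟨b, rfl⟩ := hx'
      rw [← hfe _ hx, mul_assoc, sub_mul, one_mul, hee, sub_self, mul_zero]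
    · rw [codisjoint_iff, Ideal.eq_top_iff_one]
      have h1 : e + (1 - e) ∈ I ⊔ Ideal.span {1 - e} := add_mem (Ideal.mem_sup_left heI)
        (Ideal.mem_sup_right (Ideal.mem_span_singleton_self _))
      rwa [add_sub_cancel] at h1
  exact { exists_isCompl := hcompl }

end main

/-- If the skew Laurent series ring `A((x, φ))` is von Neumann regular, then it is Artinian on
both sides; in fact it is semisimple. -/
theorem result (A : Type u) [Ring A] (φ : RingAut A) (hR : IsVNRegular (SkewLaurent φ)) :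
    IsArtinianRing (SkewLaurent φ) ∧ IsArtinianRing (SkewLaurent φ)ᵐᵒᵖ ∧
      IsSemisimpleRing (SkewLaurent φ) := by
  have h := semisimple hR
  have h' : IsSemisimpleRing (SkewLaurent φ)ᵐᵒᵖ := inferInstance
  exact ⟨inferInstance, inferInstance, h⟩

end Pool.Agent.Results.MP_20d9b9_al.RegularArtinian
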